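import Pool.Agent.Lib.MP_d308c3_co.KE

set_option autoImplicit false

namespace Pool.Agent.Results.MP_d308c3_co.KEdges

open Pool.Agent.Lib.MP_d308c3_co

theorem result : ∀ ε : ℝ, 0 < ε → ∃ C : ℝ, ∀ (S : Finset (ℝ × ℝ)) (k : ℕ),
    (∀ p ∈ S, ∀ q ∈ S, ∀ r ∈ S, p ≠ q → p ≠ r → q ≠ r →
      (q.1 - p.1) * (r.2 - p.2) - (q.2 - p.2) * (r.1 - p.1) ≠ 0) →
    (Set.ncard {x : (ℝ × ℝ) × (ℝ × ℝ) | x.1 ∈ S ∧ x.2 ∈ S ∧ x.1 ≠ x.2 ∧
      Set.ncard {r : ℝ × ℝ | r ∈ S ∧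
        (x.2.1 - x.1.1) * (r.2 - x.1.2) - (x.2.2 - x.1.2) * (r.1 - x.1.1) < 0} = k} : ℝ)
      ≤ C * (S.card : ℝ) ^ (1 + ε) := by
  classical
  intro ε hε
  obtain ⟨C, -, hC⟩ := KE.up_le hε
  refine ⟨1 + 2 * C, fun S k hg => ?_⟩
  have e1 : ∀ x : (ℝ × ℝ) × (ℝ × ℝ), Set.ncard {r : ℝ × ℝ | r ∈ S ∧
      (x.2.1 - x.1.1) * (r.2 - x.1.2) - (x.2.2 - x.1.2) * (r.1 - x.1.1) < 0} = (S.filter fun r =>
      (x.2.1 - x.1.1) * (r.2 - x.1.2) - (x.2.2 - x.1.2) * (r.1 - x.1.1) < 0).card := fun x => by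
    rw [← Set.ncard_coe_finset, Finset.coe_filter]
  let E := (S ×ˢ S).filter fun x => x.1 ≠ x.2 ∧ (S.filter fun r =>
    (x.2.1 - x.1.1) * (r.2 - x.1.2) - (x.2.2 - x.1.2) * (r.1 - x.1.1) < 0).card = k
  have e2 : {x : (ℝ × ℝ) × (ℝ × ℝ) | x.1 ∈ S ∧ x.2 ∈ S ∧ x.1 ≠ x.2 ∧
      Set.ncard {r : ℝ × ℝ | r ∈ S ∧
        (x.2.1 - x.1.1) * (r.2 - x.1.2) - (x.2.2 - x.1.2) * (r.1 - x.1.1) < 0} = k} = E := by
    ext x
    simp only [E, e1, Finset.coe_filter, Finset.mem_product, Set.mem_ofPred_eq, and_assoc]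
  rw [e2, Set.ncard_coe_finset]
  have a : (E.card : ℝ) ≤ S.card + ((KE.Up S (k + 1)).card + (KE.Up S (S.card - 1 - k)).card) := by
    exact_mod_cast KE.split S k hg E fun x hx => by
      have := Finset.mem_filter.1 hx
      exact ⟨(Finset.mem_product.1 this.1).1, (Finset.mem_product.1 this.1).2, this.2⟩
  have b : (S.card : ℝ) ≤ (S.card : ℝ) ^ (1 + ε) := by
    rcases Nat.eq_zero_or_pos S.card with z | z
    · rw [z, Nat.cast_zero]; positivity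
    · conv_lhs => rw [← Real.rpow_one (S.card : ℝ)]
      exact Real.rpow_le_rpow_of_exponent_le (by exact_mod_cast z) (by linarith)
  linarith [hC S (k + 1) hg, hC S (S.card - 1 - k) hg]

end Pool.Agent.Results.MP_d308c3_co.KEdges
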