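import Mathlib
import Pool.Agent.Lib.MP_d308c3_co.Main

namespace Pool.Agent.Results.MP_d308c3_co.LowerBound

open Real Filter

theorem result : ∀ᶠ n : ℕ in atTop, ∃ S : Finset (ℝ × ℝ), S.card = 2 * n ∧
    (∀ p ∈ S, ∀ q ∈ S, ∀ r ∈ S, p ≠ q → p ≠ r → q ≠ r →
      (q.1 - p.1) * (r.2 - p.2) - (q.2 - p.2) * (r.1 - p.1) ≠ 0) ∧
    2 * (n : ℝ) ^ (1 + exp (-10 * √(log (log n)))) ≤
      (((S ×ˢ S).filter (fun x => x.1 ≠ x.2 ∧
        (S.filter (fun r => 0 < (x.2.1 - x.1.1) * (r.2 - x.1.2)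
            - (x.2.2 - x.1.2) * (r.1 - x.1.1))).card * 2 + 2 = S.card)).card : ℝ) :=
  Pool.Agent.Lib.MP_d308c3_co.main

end Pool.Agent.Results.MP_d308c3_co.LowerBound
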